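import Pool.Agent.H33.SG4

set_option autoImplicit false

namespace Pool.Agent.Results.MP_9ba03c_gt.CHCex

open Set Filter Topology Cardinal Pool.Agent.H33.GrothDefs Pool.Agent.H33.SG4

theorem result (hCH : continuum.{0} = ℵ_ 1) : ∃ (X Y : Type) (_ : TopologicalSpace X)
    (_ : TopologicalSpace Y), T35Space X ∧ T35Space Y ∧ IsGrothendieck X ∧ IsGrothendieck Y ∧
      ∃ (K : Set (Cp X)) (L : Set (Cp Y)), IsCompact K ∧ IsCompact L ∧
        ¬ FrechetUrysohnSpace (K × L) := by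
  obtain ⟨A, h1, h2, ⟨x, h3⟩, h4⟩ := main hCH
  let E : ∀ i, Ultrafilter ℕ → Cp (Y (A i)) := fun i u => ⟨ev _ u, h2 i u⟩
  have hK : ∀ i, IsCompact (range (E i)) := fun i => isCompact_range (ev_cont.subtype_mk _)
  have h5 : ∀ i, Tendsto (fun F => E i (pure (x F))) atTop (𝓝 ⟨0, continuous_const⟩) :=
    fun i => tendsto_subtype_rng.2 (h3 i)
  have h0 : ∀ i, (⟨0, continuous_const⟩ : Cp (Y (A i))) ∈ range (E i) := fun i =>
    (hK i).isClosed.mem_of_tendsto (h5 i) (Eventually.of_forall fun _ => ⟨_, rfl⟩)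
  refine ⟨Y (A true), Y (A false), inferInstance, inferInstance, inferInstance, inferInstance,
    h1 _, h1 _, _, _, hK true, hK false, fun h => ?_⟩
  let P : ℕ → range (E true) × range (E false) := fun n =>
    (⟨_, pure n, rfl⟩, ⟨_, pure n, rfl⟩)
  obtain ⟨s, s1, s2⟩ := mem_closure_iff_seq_limit.1 (mem_closure_of_tendsto (f := fun F => P (x F))
    (s := range P) (x := (⟨_, h0 true⟩, ⟨_, h0 false⟩)) ((tendsto_subtype_rng.2 (h5 true)).prodMk_nhds
      (tendsto_subtype_rng.2 (h5 false))) (Eventually.of_forall fun F => ⟨_, rfl⟩))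
  choose k hk using s1
  obtain rfl : s = fun n => P (k n) := (funext hk).symm
  obtain ⟨u, u1, ⟨i, u2⟩, u3⟩ := h4 k
  refine u2 (tendsto_nhds_unique (u3 i) (Tendsto.mono_left ?_ u1))
  cases i
  · exact tendsto_subtype_rng.1 (tendsto_subtype_rng.1 s2.snd_nhds)
  · exact tendsto_subtype_rng.1 (tendsto_subtype_rng.1 s2.fst_nhds)

end Pool.Agent.Results.MP_9ba03c_gt.CHCex
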